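import Mathlib

open Cardinal Pointwise

namespace Pool.Agent.Results.MP_907903_al.RankAlephTwo

universe u

/-- A subset `A` of an additive group is `κ`-large if `F + A` is the whole group for some `F` with
fewer than `κ` elements. -/
def IsLarge {G : Type u} [AddGroup G] (κ : Cardinal.{u}) (A : Set G) : Prop :=
  ∃ F : Set G, #F < κ ∧ F + A = Set.univ

/-- The set of finitely supported functions whose dominant coordinate is `i`. -/
def dom {ι : Type u} [LinearOrder ι] (i : ι) : Set (ι →₀ ℤ) :=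
  {x | (∀ j, |x j| ≤ |x i|) ∧ ∀ j, j < i → |x j| < |x i|}

lemma dom_disjoint {ι : Type u} [LinearOrder ι] {i j : ι} (h : i ≠ j) :
    Disjoint (dom i) (dom j) := by
  rw [Set.disjoint_left]
  rintro x ⟨h1, h2⟩ ⟨h3, h4⟩
  rcases lt_or_gt_of_ne h with h | h
  · exact absurd (h4 i h) (not_lt.mpr (h1 j))
  · exact absurd (h2 j h) (not_lt.mpr (h3 i))

lemma dom_large {ι : Type u} [LinearOrder ι] (i : ι) (x : ι →₀ ℤ) :
    ∃ n : ℤ, ∃ a ∈ dom i, Finsupp.single i n + a = x := by
  classical
  -- choose `N` larger than all the values of `x`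
  obtain ⟨N, hN⟩ : ∃ N : ℤ, ∀ j, |x j| < N := by
    refine ⟨∑ j ∈ x.support, |x j| + 1, fun j => ?_⟩
    by_cases hj : j ∈ x.support
    · have := Finset.single_le_sum (f := fun j => |x j|) (fun k _ => abs_nonneg _) hj
      linarith
    · have h0 : x j = 0 := by simpa using hj
      rw [h0, abs_zero]
      have : 0 ≤ ∑ j ∈ x.support, |x j| := Finset.sum_nonneg fun k _ => abs_nonneg _
      linarith
  have hN0 : 0 < N := lt_of_le_of_lt (abs_nonneg _) (hN i)
  refine ⟨x i - N, x - Finsupp.single i (x i - N), ⟨fun j => ?_, fun j hj => ?_⟩, by abel⟩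
  · by_cases hji : j = i
    · subst hji; exact le_refl _
    · have : Finsupp.single i (x i - N) j = 0 := by
        rw [Finsupp.single_apply, if_neg (Ne.symm hji)]
      simp only [Finsupp.sub_apply, this, sub_zero, Finsupp.single_eq_same, sub_sub_cancel]
      rw [abs_of_pos hN0]
      exact (hN j).le
  · have hji : j ≠ i := hj.ne
    have : Finsupp.single i (x i - N) j = 0 := by
      rw [Finsupp.single_apply, if_neg (Ne.symm hji)]
    simp only [Finsupp.sub_apply, this, sub_zero, Finsupp.single_eq_same, sub_sub_cancel]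
    rw [abs_of_pos hN0]
    exact hN j

lemma aux {ι : Type u} (hι : #ι = ℵ_ 2) :
    ∃ A : ι → Set (ι →₀ ℤ), Pairwise (Function.onFun Disjoint A) ∧ (∀ i, (A i).Nonempty) ∧
      (⋃ i, A i) = Set.univ ∧ ∀ i, IsLarge (ℵ_ 1) (A i) := by
  classical
  obtain ⟨o, ho⟩ : ∃ o : LinearOrder ι, True := ⟨linearOrderOfSTO (WellOrderingRel : ι → ι → Prop), trivial⟩
  have hne : Nonempty ι := by
    rw [← Cardinal.mk_ne_zero_iff, hι]
    exact (Cardinal.aleph_pos _).ne'
  obtain ⟨i₀⟩ := hne
  -- the remaining elements are added to the cell of `i₀`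
  let A : ι → Set (ι →₀ ℤ) := fun i =>
    if i = i₀ then {x | x ∈ dom i ∨ ∀ j, x ∉ dom j} else dom i
  have hsub : ∀ i, dom i ⊆ A i := by
    intro i x hx
    by_cases h : i = i₀
    · simp only [A, if_pos h]; exact Or.inl hx
    · simp only [A, if_neg h]; exact hx
  have hlarge : ∀ i, IsLarge (ℵ_ 1) (A i) := by
    intro i
    refine ⟨Set.range (fun n : ℤ => Finsupp.single i n), ?_, ?_⟩
    · calc #(Set.range (fun n : ℤ => (Finsupp.single i n : ι →₀ ℤ))) ≤ ℵ₀ := by
            rw [Cardinal.le_aleph0_iff_set_countable]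
            exact Set.countable_range _
        _ < ℵ_ 1 := by
            rw [← Cardinal.aleph_zero]
            exact Cardinal.aleph_lt_aleph.mpr (by norm_num)
    · rw [Set.eq_univ_iff_forall]
      intro x
      obtain ⟨n, a, ha, hx⟩ := dom_large i x
      exact ⟨_, ⟨n, rfl⟩, a, hsub i ha, hx⟩
  refine ⟨A, ?_, ?_, ?_, hlarge⟩
  · intro i j hij
    simp only [Function.onFun]
    by_cases hi : i = i₀
    · have hj : j ≠ i₀ := fun h => hij (hi.trans h.symm)
      simp only [A, if_pos hi, if_neg hj]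
      rw [Set.disjoint_left]
      rintro x (hx | hx) hx'
      · exact Set.disjoint_left.mp (dom_disjoint hij) hx hx'
      · exact hx j hx'
    · by_cases hj : j = i₀
      · simp only [A, if_pos hj, if_neg hi]
        rw [Set.disjoint_right]
        rintro x (hx | hx) hx'
        · exact Set.disjoint_left.mp (dom_disjoint hij) hx' hx
        · exact hx i hx'
      · simp only [A, if_neg hi, if_neg hj]
        exact dom_disjoint hij
  · intro i
    obtain ⟨F, -, hF⟩ := hlarge i
    have h0 : (0 : ι →₀ ℤ) ∈ F + A i := by rw [hF]; trivial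
    obtain ⟨_, _, a, ha, _⟩ := h0
    exact ⟨a, ha⟩
  · rw [Set.eq_univ_iff_forall]
    intro x
    rw [Set.mem_iUnion]
    by_cases h : ∃ j, x ∈ dom j
    · obtain ⟨j, hj⟩ := h
      exact ⟨j, hsub j hj⟩
    · refine ⟨i₀, ?_⟩
      simp only [A, if_pos rfl]
      exact Or.inr (not_exists.mp h)

/-- **Main result.** A free abelian group of rank `ℵ₂` can be partitioned into `ℵ₂` subsets each of
which is `ℵ₁`-large. -/
theorem result (G : Type u) [AddCommGroup G] [Module.Free ℤ G] (hG : Module.rank ℤ G = ℵ_ 2) :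
    ∃ (ι : Type u) (A : ι → Set G), #ι = ℵ_ 2 ∧ Pairwise (Function.onFun Disjoint A) ∧
      (∀ i, (A i).Nonempty) ∧ (⋃ i, A i) = Set.univ ∧ ∀ i, IsLarge (ℵ_ 1) (A i) := by
  obtain ⟨⟨ι, b⟩⟩ := Module.Free.exists_basis (R := ℤ) (M := G)
  have hι : #ι = ℵ_ 2 := by rw [← hG, b.mk_eq_rank'']
  obtain ⟨A, h1, h2, h3, h4⟩ := aux hι
  let e : G ≃+ (ι →₀ ℤ) := b.repr.toAddEquiv
  refine ⟨ι, fun i => e ⁻¹' (A i), hι, ?_, ?_, ?_, ?_⟩
  · intro i j hij
    exact Disjoint.preimage e (h1 hij)
  · intro i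
    exact (h2 i).preimage e.surjective
  · rw [← Set.preimage_iUnion, h3, Set.preimage_univ]
  · intro i
    obtain ⟨F, hF1, hF2⟩ := h4 i
    refine ⟨e ⁻¹' F, ?_, ?_⟩
    · exact (Cardinal.mk_preimage_of_injective (f := e) (s := F) e.injective).trans_lt hF1
    · rw [Set.eq_univ_iff_forall]
      intro x
      have : e x ∈ F + A i := by rw [hF2]; trivial
      obtain ⟨f, hf, a, ha, hfa⟩ := this
      refine ⟨e.symm f, by simpa using hf, e.symm a, by simpa using ha, ?_⟩
      apply e.injective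
      simp only [map_add, AddEquiv.apply_symm_apply]
      exact hfa

end Pool.Agent.Results.MP_907903_al.RankAlephTwo
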